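import Pool.Agent.N637.P21.Bsd

/-!
# Level 21: the primes dividing the discriminant of a twist
-/

set_option autoImplicit false

namespace Pool.Agent.N877.S21

open Pool.Agent.N637.P21 (WN Em WN_Δ Em_Δ)

theorem dO {m : ℤ} (h4 : m % 4 = 1) (p : ℕ) (hp : p.Prime) :
    (p : ℤ) ∣ (WN m).Δ ↔ p ∣ 21 ∨ p ∣ m.natAbs := by
  rw [WN_Δ h4]
  have e : ((3 : ℤ) ^ 4 * 7 ^ 2 * m ^ 6) = ((3 ^ 4 * 7 ^ 2 * m.natAbs ^ 6 : ℕ) : ℤ) := by
    push_cast
    rw [Even.pow_abs (by decide)]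
  rw [e, Int.natCast_dvd_natCast, hp.dvd_mul, hp.dvd_mul]
  constructor
  · rintro ((h | h) | h)
    · exact Or.inl ((hp.dvd_of_dvd_pow h).trans (by norm_num))
    · exact Or.inl ((hp.dvd_of_dvd_pow h).trans (by norm_num))
    · exact Or.inr (hp.dvd_of_dvd_pow h)
  · rintro (h | h)
    · rw [show (21 : ℕ) = 3 * 7 by norm_num, hp.dvd_mul] at h
      rcases h with h | h
      · exact Or.inl (Or.inl (dvd_pow h (by norm_num)))
      · exact Or.inl (Or.inr (dvd_pow h (by norm_num)))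
    · exact Or.inr (dvd_pow h (by norm_num))

theorem dE (m : ℤ) (p : ℕ) (hp : p.Prime) :
    (p : ℤ) ∣ (Em m).Δ ↔ p ∣ 21 ∨ p ∣ 4 * m.natAbs := by
  rw [Em_Δ]
  have e : ((2 : ℤ) ^ 12 * 3 ^ 4 * 7 ^ 2 * m ^ 6) =
      ((2 ^ 12 * 3 ^ 4 * 7 ^ 2 * m.natAbs ^ 6 : ℕ) : ℤ) := by
    push_cast
    rw [Even.pow_abs (by decide)]
  rw [e, Int.natCast_dvd_natCast, hp.dvd_mul, hp.dvd_mul, hp.dvd_mul, hp.dvd_mul]
  constructor
  · rintro (((h | h) | h) | h)
    · exact Or.inr (Or.inl ((hp.dvd_of_dvd_pow h).trans (by norm_num)))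
    · exact Or.inl ((hp.dvd_of_dvd_pow h).trans (by norm_num))
    · exact Or.inl ((hp.dvd_of_dvd_pow h).trans (by norm_num))
    · exact Or.inr (Or.inr (hp.dvd_of_dvd_pow h))
  · rintro (h | h | h)
    · rw [show (21 : ℕ) = 3 * 7 by norm_num, hp.dvd_mul] at h
      rcases h with h | h
      · exact Or.inl (Or.inl (Or.inr (dvd_pow h (by norm_num))))
      · exact Or.inl (Or.inr (dvd_pow h (by norm_num)))
    · refine Or.inl (Or.inl (Or.inl ?_))
      rw [show (4 : ℕ) = 2 ^ 2 by norm_num] at h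
      exact (hp.dvd_of_dvd_pow h).trans (by norm_num)
    · exact Or.inr (dvd_pow h (by norm_num))

end Pool.Agent.N877.S21
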