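import Pool.Agent.N877.S21.Asm
import Pool.Agent.N877.S21.Dv
import Pool.Agent.N877.S21.Ap
import Pool.Agent.N816.S21.Tor
import Pool.Agent.N972.S21.Crit
import Pool.Agent.N975.S21V.Van

/-!
# Level 21: the facts on the curves and the criteria
-/

set_option autoImplicit false

namespace Pool.Agent.N877.S21

open Pool.Agent.N809.PQ (w21 Sg21)
open Pool.Agent.N218.T21 (EE Kd)
open Pool.Agent.Y700 (IsL tamProd Omega)

/-- the facts on the curves and the criteria -/
theorem in21 : In21 where
  tor := Pool.Agent.N816.S21.tor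
  apO := fun _ h4 p hp => apO h4 p hp
  apE := fun _ hF h2 p hp => apE hF h2 p hp
  dO := fun _ h4 _ p hp => dO h4 p hp
  dE := fun m _ p hp => dE m p hp
  van := Pool.Agent.N975.S21V.vanish
  cY := Pool.Agent.N972.S21.cY
  c21 := Pool.Agent.N972.S21.c21
  cM := Pool.Agent.N972.S21.cM

end Pool.Agent.N877.S21
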