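import Pool.Agent.N877.S21.Sc
import Pool.Agent.N975.CHB

/-!
# Level 21: the central values for all discriminants, in terms of the symbols
-/

set_option autoImplicit false
set_option linter.style.haveILetI false

open Complex Filter Topology Set UpperHalfPlane MatrixGroups CongruenceSubgroup ZMod

namespace Pool.Agent.N877.S21

open Pool.Agent.N974.Gen
open Pool.Agent.N402.MF21 (f21 eigen21)
open Pool.Agent.N969.P15 (un)
open Pool.Agent.N969.P17G (chP)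
open Pool.Agent.N969.RQ (Fd)
open Pool.Agent.W97.MT (ap)
open Pool.Agent.Y700 (IsL tamProd Omega)
open Pool.Agent.N974.P21G (sig ky sig_mul)
open Pool.Agent.N974.RQ (chP_odd ev_of odd_of)

/-- the conclusion -/
def Concl (W : WeierstrassCurve ℤ) (Q : Prop) : Prop := 0 < Omega W ∧
    ∃ (f : ℂ → ℂ) (v : ℚ) (y : ℤ), IsL W f ∧ v ≠ 0 ∧ padicValRat 2 v = 0 ∧ (Odd y ↔ Q) ∧
      f 1 = (((v : ℝ) * (y : ℝ) ^ 2 * (Omega W * tamProd W /
        (Nat.card (AddCommGroup.torsion (W.map (Int.castRingHom ℚ)).toAffine.Point) : ℝ) ^ 2) : ℝ) :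
          ℂ)

/-- the torsion has order four times an odd number -/
def Tor4 (W : WeierstrassCurve ℤ) : Prop := ∃ t : ℕ, Odd t ∧
  Nat.card (AddCommGroup.torsion (W.map (Int.castRingHom ℚ)).toAffine.Point) = 4 * t

/-- the normalized central value -/
def RelP (n T : ℕ) (Q : Prop) : Prop := ∃ y : ℤ, (Odd y ↔ Q) ∧ 8 * sig n = -(T * (y : ℝ) ^ 2)

/-- **odd positive discriminants** -/
theorem posO {n : ℕ} (hs : Squarefree n) (h4 : n % 4 = 1) (h1 : 1 < n) (W : WeierstrassCurve ℤ)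
    (hc4 : W.c₄ = 193 * (n : ℤ) ^ 2) (hc6 : W.c₆ = 575 * (n : ℤ) ^ 3)
    (ha : ∀ p : ℕ, p.Prime → ap W p = ap E21 p * jacobiSym p n)
    (hΔ : ∀ p : ℕ, p.Prime → ((p : ℤ) ∣ W.Δ ↔ p ∣ 21 ∨ p ∣ n)) {T : ℕ} (hT : tamProd W = T)
    (htor : Tor4 W) {Q : Prop} (hR : RelP n T Q) : Concl W Q := by
  have hodd : Odd n := Nat.odd_iff.2 (by omega)
  haveI : NeZero n := ⟨by omega⟩
  set d : Pool.Agent.H491R3.J.OS := ⟨n, hodd, hs, by omega⟩ with hd
  have hchi : ∀ m : ℕ, H491R3.J.chi d (m : ZMod n) = ((jacobiSym (m : ℤ) n : ℤ) : ℂ) :=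
    H491R3.J.chi_natCast d
  have jz : ∀ p : ℕ, p.Prime → (jacobiSym (p : ℤ) n = 0 ↔ p ∣ n) := by
    intro p hp
    rw [jacobiSym.eq_zero_iff_not_coprime, Int.gcd_natCast_natCast]
    have h9 : Nat.gcd p n = 1 ↔ ¬ p ∣ n := Nat.Prime.coprime_iff_not_dvd hp
    rw [ne_eq, h9, not_not]
  refine coreP h1 W hc4 hc6 (H491R3.J.chi d) (H491R3.J.chi_primitive d)
    (H491R3.J.chi_inv d) ?_ ?_ (fun u => jacobiSym u n) hchi ?_ ha ?_ hT htor ?_ hR
  · have h9 := H491R3.J.chi_neg_one d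
    have h10 : d.1 % 4 = 1 := h4
    rw [h9, if_pos h10]
  · rw [Pool.Agent.N971.EX.gauss_odd (H491R3.J.chi d) hchi, Pool.Agent.N971.EX.gJ_one hs h4]
  · intro p hp
    by_cases hpn : p ∣ n
    · exact Or.inl ((jz p hp).2 hpn)
    · right
      refine jacobiSym.eq_one_or_neg_one ?_
      rw [Int.gcd_natCast_natCast]
      exact (Nat.Prime.coprime_iff_not_dvd hp).2 hpn
  · intro p hp
    rw [hΔ p hp, jz p hp]
  · rw [sig_mul]
    refine Finset.sum_congr rfl fun u _ => ?_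
    rw [chP_odd hs (by omega)]
    rfl

open Pool.Agent.N974.Gen.ChP in
/-- **even positive discriminants** -/
theorem posE {n : ℕ} (hn : Fd n) (h2 : 2 ∣ n) (W : WeierstrassCurve ℤ)
    (hc4 : W.c₄ = 193 * (n : ℤ) ^ 2) (hc6 : W.c₆ = 575 * (n : ℤ) ^ 3)
    (ha : ∀ p : ℕ, p.Prime → ap W p = ap E21 p * chP n p)
    (hΔ : ∀ p : ℕ, p.Prime → ((p : ℤ) ∣ W.Δ ↔ p ∣ 21 ∨ p ∣ n)) {T : ℕ} (hT : tamProd W = T)
    (htor : Tor4 W) {Q : Prop} (hR : RelP n T Q) : Concl W Q := by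
  have hE := ev_of hn h2
  have hm := ev_mod hE
  have hn0 : 0 < n := by omega
  haveI : NeZero n := ⟨by omega⟩
  have hP : ∀ u : ℤ, chP n u = Pool.Agent.N974.Gen.ChP.chE n u :=
    fun u => Pool.Agent.N974.PG.chP_eq hE u
  have hchi : ∀ m : ℕ, chi n hm (m : ZMod n) = ((chP n (m : ℤ) : ℤ) : ℂ) := by
    intro m
    rw [chi_nat, hP]
  have jz : ∀ p : ℕ, p.Prime → (chP n p = 0 ↔ p ∣ n) := by
    intro p hp
    rw [hP]
    constructor
    · intro h0
      by_contra hcon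
      rcases chE_pm hm ((Nat.Prime.coprime_iff_not_dvd hp).2 hcon) with h | h <;>
        rw [h] at h0 <;> norm_num at h0
    · intro h0
      exact chE_zero hm fun h => hp.one_lt.ne' (Nat.eq_one_of_dvd_coprimes h dvd_rfl h0)
  refine coreP (by omega) W hc4 hc6 (chi n hm) (chi_primitive hE)
    (chi_inv n hm) ?_ ?_ (fun u => chP n u) hchi ?_ ha ?_ hT htor ?_ hR
  · have h1 : ((n - 1 : ℕ) : ZMod n) = -1 := by
      rw [Nat.cast_sub (by omega), ZMod.natCast_self, Nat.cast_one, zero_sub]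
    have h2 : chP n ((n - 1 : ℕ) : ℤ) = 1 := by
      rw [hP, chE_mod hm (u := ((n - 1 : ℕ) : ℤ)) (v := -1) ⟨1, by omega⟩]
      exact Pool.Agent.N974.PG.chE_neg_one hE
    rw [← h1, hchi, h2]
    norm_num
  · obtain ⟨m, rfl, hs, h5⟩ := hE
    exact Pool.Agent.N971.EX.gauss_chP hs h5.symm (chi (4 * m) hm) hchi
  · intro p hp
    by_cases hpn : p ∣ n
    · exact Or.inl ((jz p hp).2 hpn)
    · right
      show chP n p = 1 ∨ chP n p = -1
      rw [hP]
      exact chE_pm hm ((Nat.Prime.coprime_iff_not_dvd hp).2 hpn)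
  · intro p hp
    rw [hΔ p hp]
    show _ ↔ _ ∨ chP n p = 0
    rw [jz p hp]
  · rw [sig_mul]
    rfl

/-- **odd negative discriminants** -/
theorem negO {n : ℕ} (hs : Squarefree n) (h4 : n % 4 = 3) (W : WeierstrassCurve ℤ)
    (hc4 : W.c₄ = 193 * (n : ℤ) ^ 2) (hc6 : W.c₆ = -(575 * (n : ℤ) ^ 3))
    (ha : ∀ p : ℕ, p.Prime → ap W p = ap E21 p * jacobiSym p n)
    (hΔ : ∀ p : ℕ, p.Prime → ((p : ℤ) ∣ W.Δ ↔ p ∣ 21 ∨ p ∣ n)) {T : ℕ} (hT : tamProd W = T)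
    (htor : Tor4 W) {Q : Prop} (hR : RelN n (fun u => jacobiSym u n) T Q) : Concl W Q := by
  have hodd : Odd n := Nat.odd_iff.2 (by omega)
  haveI : NeZero n := ⟨by omega⟩
  set d : Pool.Agent.H491R3.J.OS := ⟨n, hodd, hs, by omega⟩ with hd
  have hchi : ∀ m : ℕ, H491R3.J.chi d (m : ZMod n) = ((jacobiSym (m : ℤ) n : ℤ) : ℂ) :=
    H491R3.J.chi_natCast d
  have jz : ∀ p : ℕ, p.Prime → (jacobiSym (p : ℤ) n = 0 ↔ p ∣ n) := by
    intro p hp
    rw [jacobiSym.eq_zero_iff_not_coprime, Int.gcd_natCast_natCast]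
    have h9 : Nat.gcd p n = 1 ↔ ¬ p ∣ n := Nat.Prime.coprime_iff_not_dvd hp
    rw [ne_eq, h9, not_not]
  refine coreN (by omega) W hc4 hc6 (H491R3.J.chi d) (H491R3.J.chi_primitive d)
    (H491R3.J.chi_inv d) ?_ (fun u => jacobiSym u n) hchi ?_ ha ?_ hT htor hR
  · have h9 := H491R3.J.chi_neg_one d
    have h10 : ¬ (d.1 % 4 = 1) := by
      change ¬ (n % 4 = 1)
      omega
    rw [h9, if_neg h10]
  · intro p hp
    by_cases hpn : p ∣ n
    · exact Or.inl ((jz p hp).2 hpn)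
    · right
      refine jacobiSym.eq_one_or_neg_one ?_
      rw [Int.gcd_natCast_natCast]
      exact (Nat.Prime.coprime_iff_not_dvd hp).2 hpn
  · intro p hp
    rw [hΔ p hp, jz p hp]

open Pool.Agent.N975.ChE Pool.Agent.N969.P15 in
/-- **even negative discriminants** -/
theorem negE {n : ℕ} (hE : Ev n) (W : WeierstrassCurve ℤ)
    (hc4 : W.c₄ = 193 * (n : ℤ) ^ 2) (hc6 : W.c₆ = -(575 * (n : ℤ) ^ 3))
    (ha : ∀ p : ℕ, p.Prime → ap W p = ap E21 p * chE n p)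
    (hΔ : ∀ p : ℕ, p.Prime → ((p : ℤ) ∣ W.Δ ↔ p ∣ 21 ∨ p ∣ n)) {T : ℕ} (hT : tamProd W = T)
    (htor : Tor4 W) {Q : Prop} (hR : RelN n (fun u => chE n u) T Q) : Concl W Q := by
  have hm := ev_mod hE
  have hn0 := ev_pos hE
  haveI : NeZero n := ⟨by omega⟩
  have jz : ∀ p : ℕ, p.Prime → (chE n p = 0 ↔ p ∣ n) := by
    intro p hp
    constructor
    · intro h0
      by_contra hcon
      rcases chE_pm hm ((Nat.Prime.coprime_iff_not_dvd hp).2 hcon) with h | h <;>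
        rw [h] at h0 <;> norm_num at h0
    · intro h0
      exact chE_zero hm fun h => hp.one_lt.ne' (Nat.eq_one_of_dvd_coprimes h dvd_rfl h0)
  refine coreN (by omega) W hc4 hc6 (chi n hm) (chi_primitive hE)
    (chi_inv n hm) ?_ (fun u => chE n u) (chi_nat n hm) ?_ ha ?_ hT htor hR
  · have h1 : ((n - 1 : ℕ) : ZMod n) = -1 := by
      rw [Nat.cast_sub (by omega), ZMod.natCast_self, Nat.cast_one, zero_sub]
    have h2 : chE n ((n - 1 : ℕ) : ℤ) = -1 := by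
      rw [chE_mod hm (u := ((n - 1 : ℕ) : ℤ)) (v := -1) ⟨1, by omega⟩]
      exact Pool.Agent.N975.CHB.chE_neg_one hE
    rw [← h1, chi_nat n hm, h2]
    norm_num
  · intro p hp
    by_cases hpn : p ∣ n
    · exact Or.inl ((jz p hp).2 hpn)
    · exact Or.inr (chE_pm hm ((Nat.Prime.coprime_iff_not_dvd hp).2 hpn))
  · intro p hp
    rw [hΔ p hp, jz p hp]

end Pool.Agent.N877.S21
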