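import Pool.Agent.N877.P21G.Sig
import Pool.Agent.N974.P21G.Sgr
import Pool.Agent.N970.RQ.B21e
import Pool.Agent.N970.RQ.Bil7c
import Pool.Agent.N877.S21.Pos

/-!
# Level 21: the normalized central values of the class `R21r`
-/

set_option autoImplicit false

namespace Pool.Agent.N877.S21

open Finset
open Pool.Agent.N969.P15 (un)
open Pool.Agent.N969.P17G (chP)
open Pool.Agent.N969.RQ
open Pool.Agent.N877.P21G
open Pool.Agent.N877.P21 (cc Cls0)
open Pool.Agent.N974.P21G (sig)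

theorem sig_R21r {A : ℕ} (hA : R21r A) : sig A = -8 * (J 21 o3 A 1 1 3 : ℝ) ^ 2 := by
  obtain ⟨l, hl, hc, hco, hlA, hcc⟩ := Lvs.aux A (by have := hA.1.1; omega)
  have hl3 : l ≠ 3 := by
    rintro rfl
    have := hc.2.2.1
    omega
  have hl7 : l ≠ 7 := by
    rintro rfl
    have := hc.2.2.2
    unfold Pool.Agent.N877.P21.Sp7 at this
    omega
  have h1 := Pool.Agent.N974.P21G.t_SIGR hA hl hc
  have h2 := Pool.Agent.N974.RQ.t_C1Dr 7 3 A l (by norm_num) (by norm_num) (by norm_num)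
    (by norm_num) (by norm_num) hA.1 hl hc.2.1 hl7 hl3 hlA (by have := hA.2.1; omega) hA.2.2
  have e : ∀ T ∈ (range (A * l)).filter (fun T => 3 ∣ T ∧ ¬ 7 ∣ T),
      WDr 7 3 A l (A * l - T) T = - (sl A l T * ld21r (A * l) T) := by
    intro T hT
    rw [mem_filter, mem_range] at hT
    have hT0 : 0 < T := Nat.pos_of_ne_zero fun h0 => hT.2.2 (by rw [h0]; exact dvd_zero 7)
    exact Pool.Agent.N975.RQ.Du.t_C2D21r A l hA hl hc hlA T hT0 hT.1 hT.2.1 hT.2.2
  rw [sum_congr rfl e, sum_neg_distrib] at h2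
  have h3 := Pool.Agent.N218.RQ.dual21r Pool.Agent.N970.RQ3.t_BILJ21 hA hl hc hlA
  have h4 : 9 * ∑ u ∈ un A, chP A u * Flr 7 3 l u A = 2 * J 21 o3 A 1 1 3 ^ 2 * cc l ^ 2 := by
    rw [h2]
    linarith
  have h5 := congrArg (Int.cast (R := ℝ)) h4
  have h6 := congrArg (Int.cast (R := ℝ)) (Pool.Agent.N402.P21G.t_DE0 Pool.Agent.N974.P21G.t_D1I
    Pool.Agent.N974.P21G.t_D1I2 Pool.Agent.N871.G21.t_C2E Pool.Agent.N975.S21.All.s_CP7
    Pool.Agent.N975.S21.All.s_CP7E Pool.Agent.N712.P21.t_HE Pool.Agent.N712.P21.t_HEE l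
    (Or.inl hc))
  apply mul_right_cancel₀ (pow_ne_zero 2 hcc)
  push_cast at h1 h5 h6
  rw [h1] at h5
  linear_combination -4 * h5 - sig A * h6

end Pool.Agent.N877.S21
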