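import Pool.Agent.N877.P21G.Lv
import Pool.Agent.N877.S21.Sr
import Pool.Agent.N972.GC.Id21
import Pool.Agent.N637.P21.AsmB

/-!
# Level 21: the central values of all classes of root number `+1` and the criteria
-/

set_option autoImplicit false

namespace Pool.Agent.N877.S21

open Finset
open Pool.Agent.N969.P15 (un Ev Qc Qe chE)
open Pool.Agent.N969.P17G (chP chM)
open Pool.Agent.N969.RQ
open Pool.Agent.N877.P21G
open Pool.Agent.N972.GC (CY CM C21)
open Pool.Agent.N974.P21G (sig)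
open Pool.Agent.N402.P21G (chM_odd chM_even)
open Pool.Agent.N974.Gen (Symb21)
open Pool.Agent.N975.S21 (Sy)

variable (h : Lvs)
include h

theorem relP_Ai {A : ℕ} (hA : Ai A) : RelP A (4 ^ A.primeFactors.card * 4) (CY (-7) A) := by
  obtain ⟨y, hy⟩ := h.yy
  refine ⟨y A, (hy A (Or.inl hA)).2, ?_⟩
  have h1 := h.sig_Ai hA (hy A (Or.inl hA)).1
  push_cast
  linear_combination 4 * h1

theorem relP_A0 {A : ℕ} (hA : A0 A) : RelP A (4 ^ A.primeFactors.card * 2) (CY (-7) A) := by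
  obtain ⟨y, hy⟩ := h.yy
  refine ⟨y A, (hy A (Or.inr hA)).2, ?_⟩
  have h1 := h.sig_A0 hA (hy A (Or.inr hA)).1
  push_cast
  linear_combination 2 * h1

omit h in
theorem card_pos_of {A : ℕ} (hA : Fd A) : 1 ≤ A.primeFactors.card :=
  Finset.card_pos.2 (Nat.nonempty_primeFactors.2 hA.1)

theorem relP_As {A : ℕ} (hA : R21 A) : RelP A (4 ^ A.primeFactors.card * 8) (C21 A) := by
  obtain ⟨y, hy, hy2⟩ := Pool.Agent.N855.RQp.y21 h.bilj h.biljn h.r7 h.kyi
    Pool.Agent.N972.GC.t_ID21 hA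
  refine ⟨y, hy2, ?_⟩
  have h1 := h.sig_As hA
  obtain ⟨k, hk⟩ : ∃ k, A.primeFactors.card = k + 1 :=
    ⟨_, (Nat.succ_pred_eq_of_pos (card_pos_of hA.1)).symm⟩
  rw [hk, Nat.add_sub_cancel] at hy
  rw [h1, hy, hk]
  push_cast
  have e4 : (4 : ℝ) ^ k = (2 ^ k) ^ 2 := by
    rw [← pow_mul, mul_comm, pow_mul]
    norm_num
  rw [pow_succ (4 : ℝ) k, e4]
  ring

omit h in
theorem card_two {A : ℕ} (hA : R21r A) : 2 ≤ A.primeFactors.card := by
  by_contra hc
  have h1 := card_pos_of hA.1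
  have h2 : A.primeFactors.card = 1 := by omega
  obtain ⟨q, hq⟩ := Finset.card_eq_one.1 h2
  have hA0 : A ≠ 0 := by have := hA.1.1; omega
  have h7 : 7 ∈ A.primeFactors := Nat.mem_primeFactors.2 ⟨by norm_num, hA.2.2, hA0⟩
  have hq7 : q = 7 := by
    rw [hq, Finset.mem_singleton] at h7
    exact h7.symm
  subst hq7
  rcases hA.1.2 with ⟨hs, h4⟩ | ⟨M, h3, -, -⟩
  · have : A = 7 := by
      have h5 := Nat.prod_primeFactors_of_squarefree hs
      rw [hq, Finset.prod_singleton] at h5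
      exact h5.symm
    omega
  · have h2A : 2 ∈ A.primeFactors := Nat.mem_primeFactors.2 ⟨Nat.prime_two, by omega, hA0⟩
    rw [hq, Finset.mem_singleton] at h2A
    omega

theorem relP_R21r {A : ℕ} (hA : R21r A) : RelP A (4 ^ A.primeFactors.card * 4) (C21 A) := by
  obtain ⟨y, hy, hy2⟩ := Pool.Agent.N855.RQp.y21r h.bilj h.biljn h.r7 h.r7r h.kyi
    Pool.Agent.N972.GC.t_ID21r hA
  refine ⟨y, hy2, ?_⟩
  have h1 := sig_R21r hA
  obtain ⟨k, hk⟩ : ∃ k, A.primeFactors.card = k + 2 := ⟨A.primeFactors.card - 2, by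
    have := card_two hA; omega⟩
  rw [hk, Nat.add_sub_cancel] at hy
  rw [h1, hy, hk]
  push_cast
  have e4 : (4 : ℝ) ^ k = (2 ^ k) ^ 2 := by
    rw [← pow_mul, mul_comm, pow_mul]
    norm_num
  rw [pow_add (4 : ℝ) k 2, e4]
  ring

theorem relN_Kn {n : ℕ} (hn : Kn n) {w : ℕ → ℤ} (hw : ∀ u : ℕ, w u = chM n u) :
    RelN n w (4 ^ n.primeFactors.card * 8) (CM (-7) 3 n) := by
  obtain ⟨y, hy, hy2⟩ := h.cnv hn
  refine ⟨y, 1, by decide, hy2, fun s f g => ⟨s (1 / 3), Pool.Agent.N637.P21.s13_odd g, ?_⟩⟩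
  have h1 := kn_sum (R := ℤ) h.diagn (Pool.Agent.N637.P21.sy_of g) hn
  simp only [Int.cast_id] at h1
  simp only [hw]
  have e4 : ((4 ^ n.primeFactors.card * 8 : ℕ) : ℤ) = 2 * (2 ^ (n.primeFactors.card + 1)) ^ 2 := by
    push_cast
    rw [← pow_mul, mul_comm (n.primeFactors.card + 1) 2, pow_mul]
    norm_num
    rw [pow_succ]
    ring
  rw [e4]
  rw [hy] at h1
  linear_combination 2 * h1

omit h

theorem relN_of {n : ℕ} {w : ℕ → ℤ} {Q : Prop} (hr : Pool.Agent.N637.P21.Rel n w Q) {T : ℕ}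
    (hT : T = 4 ^ n.primeFactors.card *
      (Pool.Agent.N637.P21.t2 3 n * Pool.Agent.N637.P21.t2 7 n)) : RelN n w T Q := by
  subst hT
  exact hr

end Pool.Agent.N877.S21
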