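import Pool.Agent.N877.P21G.Defs
import Pool.Agent.N218.T21.Tam
import Pool.Agent.N809.PQ.P21

/-!
# Level 21: the classes of the squarefree integers of root number `+1`
-/

set_option autoImplicit false

namespace Pool.Agent.N877.S21

open Pool.Agent.N969.P15 (Ev)
open Pool.Agent.N969.RQ (Fd R21 R21r)
open Pool.Agent.N877.P21G (Fn I7 Ai A0 Kn)
open Pool.Agent.N218.T21 (Kd t3 t7)
open Pool.Agent.N637.P21 (Ao Ae t2)
open Pool.Agent.N809.PQ (w21)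

theorem sqf_natAbs {m : ℤ} (hs : Squarefree m) : Squarefree m.natAbs := Int.squarefree_natAbs.2 hs

theorem fd_of {m : ℤ} (hs : Squarefree m) (h0 : 0 < m) (h1 : m ≠ 1) : Fd (Kd m) := by
  have hs' := sqf_natAbs hs
  unfold Kd
  by_cases h4 : m % 4 = 1
  · rw [if_pos h4]
    exact ⟨by omega, Or.inl ⟨hs', by omega⟩⟩
  · rw [if_neg h4]
    refine ⟨by omega, Or.inr ⟨m.natAbs, rfl, hs', ?_⟩⟩
    have h5 : ¬ (4 : ℤ) ∣ m := fun h => by
      have := hs 2 (by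
        obtain ⟨k, hk⟩ := h
        exact ⟨k, by rw [hk]; ring⟩)
      rw [Int.isUnit_iff] at this
      omega
    omega

theorem fn_of {m : ℤ} (hs : Squarefree m) (h0 : m < 0) : (Squarefree (Kd m) ∧ Kd m % 4 = 3 ∧
    m % 4 = 1) ∨ (Ev (Kd m) ∧ m % 4 ≠ 1) := by
  have hs' := sqf_natAbs hs
  unfold Kd
  by_cases h4 : m % 4 = 1
  · left
    rw [if_pos h4]
    exact ⟨hs', by omega, h4⟩
  · right
    rw [if_neg h4]
    refine ⟨⟨m.natAbs, rfl, hs', ?_⟩, h4⟩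
    have h5 : ¬ (4 : ℤ) ∣ m := fun h => by
      have := hs 2 (by
        obtain ⟨k, hk⟩ := h
        exact ⟨k, by rw [hk]; ring⟩)
      rw [Int.isUnit_iff] at this
      omega
    omega

theorem Kd_pos {m : ℤ} (h0 : 0 < m) : ((Kd m : ℕ) : ℤ) = m ∨ ((Kd m : ℕ) : ℤ) = 4 * m := by
  unfold Kd
  split_ifs
  · left; omega
  · right; omega

theorem Kd_neg {m : ℤ} (h0 : m < 0) : ((Kd m : ℕ) : ℤ) = -m ∨ ((Kd m : ℕ) : ℤ) = -(4 * m) := by
  unfold Kd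
  split_ifs
  · left; omega
  · right; omega

theorem jac7 {n : ℕ} {r : ℤ} (h : (n : ℤ) % 7 = r) : jacobiSym (n : ℤ) 7 = jacobiSym r 7 := by
  rw [jacobiSym.mod_left (n : ℤ) 7]
  congr 1

theorem w_pos {m : ℤ} (h0 : 0 < m) (hw : w21 m = 1) :
    (m % 3 = 1 ∧ ¬ (m % 7 = 3 ∨ m % 7 = 5 ∨ m % 7 = 6)) ∨
      (m % 3 ≠ 1 ∧ (m % 7 = 3 ∨ m % 7 = 5 ∨ m % 7 = 6)) := by
  unfold w21 at hw
  rw [if_neg (by omega)] at hw
  by_cases h3 : m % 3 = 1 <;> by_cases h7 : (m % 7 = 3 ∨ m % 7 = 5 ∨ m % 7 = 6)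
  · rw [if_pos h3, if_pos h7] at hw
    norm_num at hw
  · exact Or.inl ⟨h3, h7⟩
  · exact Or.inr ⟨h3, h7⟩
  · rw [if_neg h3, if_neg h7] at hw
    norm_num at hw

theorem w_neg {m : ℤ} (h0 : m < 0) (hw : w21 m = 1) :
    (m % 3 = 1 ∧ (m % 7 = 3 ∨ m % 7 = 5 ∨ m % 7 = 6)) ∨
      (m % 3 ≠ 1 ∧ ¬ (m % 7 = 3 ∨ m % 7 = 5 ∨ m % 7 = 6)) := by
  unfold w21 at hw
  rw [if_pos h0] at hw
  by_cases h3 : m % 3 = 1 <;> by_cases h7 : (m % 7 = 3 ∨ m % 7 = 5 ∨ m % 7 = 6)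
  · exact Or.inl ⟨h3, h7⟩
  · rw [if_pos h3, if_neg h7] at hw
    norm_num at hw
  · rw [if_neg h3, if_pos h7] at hw
    norm_num at hw
  · exact Or.inr ⟨h3, h7⟩

/-- **the positive classes of root number `+1`** -/
theorem cls_p {m : ℤ} (hs : Squarefree m) (h0 : 0 < m) (h1 : m ≠ 1) (hw : w21 m = 1) :
    (Ai (Kd m) ∧ t3 m * t7 m = 4) ∨ (A0 (Kd m) ∧ t3 m * t7 m = 2) ∨
      (R21 (Kd m) ∧ t3 m * t7 m = 8) ∨ (R21r (Kd m) ∧ t3 m * t7 m = 4) := by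
  have hF := fd_of hs h0 h1
  have hK := Kd_pos h0
  generalize Kd m = D at hF hK
  rcases w_pos h0 hw with ⟨h3, h7⟩ | ⟨h3, h7⟩
  · have e3 : t3 m = 4 := by
      unfold t3
      rw [if_neg (by omega), if_pos h3]
    by_cases hd : (7 : ℤ) ∣ m
    · right; right; right
      have e7 : t7 m = 1 := if_pos hd
      rw [e3, e7]
      exact ⟨⟨hF, by omega, by omega⟩, rfl⟩
    · right; right; left
      have e7 : t7 m = 2 := if_neg hd
      rw [e3, e7]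
      refine ⟨⟨hF, by omega, ?_⟩, rfl⟩
      have h8 : (D : ℤ) % 7 = 1 ∨ (D : ℤ) % 7 = 2 ∨ (D : ℤ) % 7 = 4 := by
        have h9 : m % 7 = 1 ∨ m % 7 = 2 ∨ m % 7 = 4 := by omega
        rcases h9 with h9 | h9 | h9 <;> rcases hK with hK | hK <;> omega
      rcases h8 with h8 | h8 | h8
      · rw [jac7 h8]; norm_num
      · rw [jac7 h8]; norm_num
      · rw [jac7 h8]; norm_num
  · have hj : jacobiSym (D : ℤ) 7 = -1 := by
      have h8 : (D : ℤ) % 7 = 3 ∨ (D : ℤ) % 7 = 5 ∨ (D : ℤ) % 7 = 6 := by omega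
      rcases h8 with h8 | h8 | h8
      · rw [jac7 h8]; norm_num
      · rw [jac7 h8]; norm_num
      · rw [jac7 h8]; norm_num
    have e7 : t7 m = 2 := if_neg (by omega)
    by_cases hd : (3 : ℤ) ∣ m
    · right; left
      have e3 : t3 m = 1 := if_pos hd
      rw [e3, e7]
      exact ⟨⟨hF, by omega, hj⟩, rfl⟩
    · left
      have e3 : t3 m = 2 := by
        unfold t3
        rw [if_neg hd, if_neg h3]
      rw [e3, e7]
      exact ⟨⟨hF, by omega, hj⟩, rfl⟩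

/-- **the negative classes of root number `+1`** -/
theorem cls_n {m : ℤ} (hs : Squarefree m) (h0 : m < 0) (hw : w21 m = 1) :
    (Kn (Kd m) ∧ t3 m * t7 m = 8) ∨
      ((m % 4 = 1 ∧ Ao (Kd m) ∨ m % 4 ≠ 1 ∧ Ae (Kd m)) ∧
        t3 m * t7 m = t2 3 (Kd m) * t2 7 (Kd m)) := by
  have hF := fn_of hs h0
  have hK := Kd_neg h0
  generalize Kd m = D at hF hK
  rcases w_neg h0 hw with ⟨h3, h7⟩ | ⟨h3, h7⟩
  · left
    have e3 : t3 m = 4 := by
      unfold t3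
      rw [if_neg (by omega), if_pos h3]
    have e7 : t7 m = 2 := if_neg (by omega)
    rw [e3, e7]
    refine ⟨⟨?_, by omega, ?_⟩, rfl⟩
    · rcases hF with ⟨h1, h2, -⟩ | ⟨h1, -⟩
      · exact Or.inl ⟨h1, h2⟩
      · exact Or.inr h1
    · unfold I7
      omega
  · right
    have hD3 : D % 3 ≠ 2 := by omega
    have hD7 : D % 7 = 0 ∨ D % 7 = 3 ∨ D % 7 = 5 ∨ D % 7 = 6 := by
      have h9 : m % 7 = 0 ∨ m % 7 = 1 ∨ m % 7 = 2 ∨ m % 7 = 4 := by omega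
      rcases h9 with h9 | h9 | h9 | h9 <;> rcases hK with hK | hK <;> omega
    refine ⟨?_, ?_⟩
    · rcases hF with ⟨h1, h2, h4⟩ | ⟨h1, h4⟩
      · exact Or.inl ⟨h4, h1, h2, hD3, hD7⟩
      · exact Or.inr ⟨h4, h1, hD3, hD7⟩
    · have e3 : t3 m = t2 3 D := by
        unfold t3 t2
        by_cases hd : (3 : ℤ) ∣ m
        · rw [if_pos hd, if_pos (by omega)]
        · rw [if_neg hd, if_neg h3, if_neg (by omega)]
      have e7 : t7 m = t2 7 D := by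
        unfold t7 t2
        by_cases hd : (7 : ℤ) ∣ m
        · rw [if_pos hd, if_pos (by omega)]
        · rw [if_neg hd, if_neg (by omega)]
      rw [e3, e7]

end Pool.Agent.N877.S21
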