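import Pool.Agent.N877.S21.Rl
import Pool.Agent.N877.S21.Cls
import Pool.Agent.N877.P21G.Fin
import Pool.Agent.N809.D21.Main
import Pool.Agent.N637.P21.Bsd

/-!
# Level 21: the central values of the twists by all squarefree integers
-/

set_option autoImplicit false

namespace Pool.Agent.N877.S21

open Pool.Agent.N969.P15 (Ev chE Qc Qe)
open Pool.Agent.N969.P17G (chP chM)
open Pool.Agent.N969.RQ (Fd R21 R21r)
open Pool.Agent.N877.P21G (Fn I7 Ai A0 Kn lvs)
open Pool.Agent.N218.T21 (EE Kd t3 t7 tamProd_EE min_EE)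
open Pool.Agent.N637.P21 (Ao Ae t2 WN Em WNQ EQm c4_WN c6_WN c4_Em c6_Em rel_odd rel_even fin2_N
  crit_ao crit_ae)
open Pool.Agent.N809.PQ (w21 Sg21)
open Pool.Agent.N972.GC (CY CM C21)
open Pool.Agent.N974.Gen (E21)
open Pool.Agent.W97.MT (ap)
open Pool.Agent.Y700 (IsL tamProd Omega)
open Pool.Agent.N875.X15 (Fin2)
open Pool.Agent.N402.P21G (chM_odd chM_even)

/-- the facts on the curves and the criteria -/
structure In21 : Prop where
  tor : ∀ m : ℤ, Squarefree m → m ≠ 1 → Tor4 (EE m)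
  apO : ∀ n : ℕ, n % 4 = 1 → ∀ p : ℕ, p.Prime → ap (WN n) p = ap E21 p * jacobiSym p n
  apE : ∀ n : ℕ, Fd n → 2 ∣ n → ∀ p : ℕ, p.Prime →
    ap (Em ((n / 4 : ℕ) : ℤ)) p = ap E21 p * chP n p
  dO : ∀ m : ℤ, m % 4 = 1 → m ≠ 0 → ∀ p : ℕ, p.Prime →
    ((p : ℤ) ∣ (WN m).Δ ↔ p ∣ 21 ∨ p ∣ m.natAbs)
  dE : ∀ m : ℤ, m ≠ 0 → ∀ p : ℕ, p.Prime → ((p : ℤ) ∣ (Em m).Δ ↔ p ∣ 21 ∨ p ∣ 4 * m.natAbs)
  van : ∀ m : ℤ, Squarefree m → m ≠ 1 → w21 m ≠ 1 →
    0 < Omega (EE m) ∧ ∃ f : ℂ → ℂ, IsL (EE m) f ∧ f 1 = 0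
  cY : ∀ m : ℤ, Squarefree m → 0 < m → m ≠ 1 → Ai (Kd m) ∨ A0 (Kd m) →
    (Sg21 m ↔ CY (-7) (Kd m))
  c21 : ∀ m : ℤ, Squarefree m → 0 < m → m ≠ 1 → R21 (Kd m) ∨ R21r (Kd m) →
    (Sg21 m ↔ C21 (Kd m))
  cM : ∀ m : ℤ, Squarefree m → m < 0 → Kn (Kd m) → (Sg21 m ↔ CM (-7) 3 (Kd m))

theorem Concl.congr {W : WeierstrassCurve ℤ} {P Q : Prop} (h : Concl W P) (e : P ↔ Q) :
    Concl W Q := by
  obtain ⟨h1, f, v, y, h2, h3, h4, h5, h6⟩ := h
  exact ⟨h1, f, v, y, h2, h3, h4, h5.trans e, h6⟩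

/-- the curve over `ℚ` -/
theorem fin2_EE {m : ℤ} (hs : Squarefree m) (h1 : m ≠ 1) :
    Fin2 ((EE m).map (Int.castRingHom ℚ)) ↔ Sg21 m := by
  have e : Fin2 (EQm m) ↔ Sg21 m :=
    ⟨Pool.Agent.N809.D21.sg_of_fin2 hs h1, Pool.Agent.N809.D21.fin2_of_sg hs⟩
  rw [← e]
  unfold EE
  split_ifs with h4
  · exact fin2_N h4
  · exact Iff.rfl

section

variable (I : In21)
include I

/-- positive discriminants -/
theorem pos_val {m : ℤ} (hs : Squarefree m) (h0 : 0 < m) (h1 : m ≠ 1) {Q : Prop}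
    (hR : RelP (Kd m) (4 ^ (Kd m).primeFactors.card * (t3 m * t7 m)) Q) : Concl (EE m) Q := by
  have hF := fd_of hs h0 h1
  have hT := tamProd_EE hs
  have htor := I.tor m hs h1
  obtain ⟨n, rfl⟩ : ∃ n : ℕ, m = n := ⟨m.toNat, by omega⟩
  have hs' : Squarefree n := by exact_mod_cast Int.squarefree_natCast.1 hs
  by_cases h4 : ((n : ℕ) : ℤ) % 4 = 1
  · have eK : Kd (n : ℤ) = n := by
      unfold Kd
      rw [if_pos h4, Int.natAbs_natCast]
    have eE : EE (n : ℤ) = WN n := if_pos h4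
    rw [eK] at hT hR
    rw [eE] at hT htor ⊢
    refine posO hs' (by omega) (by omega) (WN n) (c4_WN h4) (c6_WN h4) (I.apO n (by omega)) ?_ hT
      htor hR
    intro p hp
    have := I.dO n h4 (by omega) p hp
    rwa [Int.natAbs_natCast] at this
  · have eK : Kd (n : ℤ) = 4 * n := by
      unfold Kd
      rw [if_neg h4, Int.natAbs_natCast]
    have eE : EE (n : ℤ) = Em n := if_neg h4
    have e4 : 4 * n / 4 = n := by omega
    rw [eK] at hT hR hF
    rw [eE] at hT htor ⊢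
    refine posE hF ⟨2 * n, by ring⟩ (Em n) ?_ ?_ ?_ ?_ hT htor hR
    · rw [c4_Em]; push_cast; ring
    · rw [c6_Em]; push_cast; ring
    · have := I.apE (4 * n) hF ⟨2 * n, by ring⟩
      rwa [e4] at this
    · intro p hp
      have := I.dE n (by omega) p hp
      rwa [Int.natAbs_natCast] at this

/-- negative discriminants -/
theorem neg_val {m : ℤ} (hs : Squarefree m) (h0 : m < 0) {Q : Prop}
    (hO : m % 4 = 1 → RelN (Kd m) (fun u => jacobiSym u (Kd m))
      (4 ^ (Kd m).primeFactors.card * (t3 m * t7 m)) Q)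
    (hE : m % 4 ≠ 1 → RelN (Kd m) (fun u => chE (Kd m) u)
      (4 ^ (Kd m).primeFactors.card * (t3 m * t7 m)) Q) : Concl (EE m) Q := by
  have hF := fn_of hs h0
  have hT := tamProd_EE hs
  have htor := I.tor m hs (by omega)
  obtain ⟨n, rfl⟩ : ∃ n : ℕ, m = -n := ⟨m.natAbs, by omega⟩
  have hn : (-(n : ℤ)).natAbs = n := by omega
  by_cases h4 : (-(n : ℤ)) % 4 = 1
  · have eK : Kd (-(n : ℤ)) = n := by
      unfold Kd
      rw [if_pos h4, hn]
    have eE : EE (-(n : ℤ)) = WN (-(n : ℤ)) := if_pos h4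
    have hR := hO h4
    rw [eK] at hT hR hF
    rw [eE] at hT htor ⊢
    rcases hF with ⟨hs', h5, -⟩ | ⟨-, h5⟩
    · refine negO hs' h5 (WN (-(n : ℤ))) ?_ ?_ (fun p hp => ?_) ?_ hT htor hR
      · rw [c4_WN h4]; ring
      · rw [c6_WN h4]; ring
      · exact Pool.Agent.N637.P21.ap_WN h5 p hp
      · intro p hp
        have := I.dO (-(n : ℤ)) h4 (by omega) p hp
        rwa [hn] at this
    · exact absurd h4 h5
  · have eK : Kd (-(n : ℤ)) = 4 * n := by
      unfold Kd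
      rw [if_neg h4, hn]
    have eE : EE (-(n : ℤ)) = Em (-(n : ℤ)) := if_neg h4
    have e4 : 4 * n / 4 = n := by omega
    have hR := hE h4
    rw [eK] at hT hR hF
    rw [eE] at hT htor ⊢
    rcases hF with ⟨-, -, h5⟩ | ⟨hEv, -⟩
    · exact absurd h5 h4
    · refine negE hEv (Em (-(n : ℤ))) ?_ ?_ ?_ ?_ hT htor hR
      · rw [c4_Em]; push_cast; ring
      · rw [c6_Em]; push_cast; ring
      · intro p hp
        have := Pool.Agent.N637.P21.ap_E hEv p hp
        rwa [e4] at this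
      · intro p hp
        have := I.dE (-(n : ℤ)) (by omega) p hp
        rwa [hn] at this

/-- **the central values of all the twists** -/
theorem vl_all {m : ℤ} (hs : Squarefree m) (h1 : m ≠ 1) : Concl (EE m) (Sg21 m) := by
  by_cases hw : w21 m = 1
  · rcases lt_trichotomy m 0 with h0 | h0 | h0
    · rcases cls_n hs h0 hw with ⟨h2, h3⟩ | ⟨h2, h3⟩
      · refine Concl.congr (neg_val I hs h0 (Q := CM (-7) 3 (Kd m)) (fun h4 => ?_) (fun h4 => ?_))
          (I.cM m hs h0 h2).symm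
        · rw [h3]
          refine relN_Kn lvs h2 fun u => ?_
          rcases fn_of hs h0 with ⟨h5, h6, -⟩ | ⟨-, h5⟩
          · exact (chM_odd (by omega) h5 u).symm
          · exact absurd h4 h5
        · rw [h3]
          refine relN_Kn lvs h2 fun u => ?_
          rcases fn_of hs h0 with ⟨-, -, h5⟩ | ⟨h5, -⟩
          · exact absurd h5 h4
          · refine (chM_even ?_ u).symm
            obtain ⟨k, hk, -⟩ := h5
            exact ⟨2 * k, by rw [hk]; ring⟩
      · rcases h2 with ⟨h4, h2⟩ | ⟨h4, h2⟩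
        · have e : Kd m = m.natAbs := if_pos h4
          have em : m = -((Kd m : ℕ) : ℤ) := by rw [e]; omega
          have hc : Sg21 m ↔ Qc (Kd m) := by
            rw [← fin2_EE hs h1, show EE m = WN m from if_pos h4]
            conv_lhs => rw [em]
            exact Pool.Agent.N637.P21.crit_ao_N h2
          refine Concl.congr (neg_val I hs h0 (fun _ => ?_) fun h => absurd h4 h) hc.symm
          exact relN_of (rel_odd h2) (by rw [h3])
        · have e : Kd m = 4 * m.natAbs := if_neg h4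
          have em : m = -((Kd m / 4 : ℕ) : ℤ) := by rw [e]; omega
          have hc : Sg21 m ↔ Qe (Kd m) := by
            rw [← fin2_EE hs h1, show EE m = Em m from if_neg h4]
            conv_lhs => rw [em]
            exact crit_ae h2
          refine Concl.congr (neg_val I hs h0 (fun h => absurd h h4) fun _ => ?_) hc.symm
          exact relN_of (rel_even h2) (by rw [h3])
    · exact absurd h0 hs.ne_zero
    · rcases cls_p hs h0 h1 hw with ⟨h2, h3⟩ | ⟨h2, h3⟩ | ⟨h2, h3⟩ | ⟨h2, h3⟩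
      · refine Concl.congr (pos_val I hs h0 h1 ?_) (I.cY m hs h0 h1 (Or.inl h2)).symm
        rw [h3]
        exact relP_Ai lvs h2
      · refine Concl.congr (pos_val I hs h0 h1 ?_) (I.cY m hs h0 h1 (Or.inr h2)).symm
        rw [h3]
        exact relP_A0 lvs h2
      · refine Concl.congr (pos_val I hs h0 h1 ?_) (I.c21 m hs h0 h1 (Or.inl h2)).symm
        rw [h3]
        exact relP_As lvs h2
      · refine Concl.congr (pos_val I hs h0 h1 ?_) (I.c21 m hs h0 h1 (Or.inr h2)).symm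
        rw [h3]
        exact relP_R21r lvs h2
  · obtain ⟨hΩ, f, hf, hf1⟩ := I.van m hs h1 hw
    refine ⟨hΩ, f, 1, 0, hf, one_ne_zero, by simp, ?_, ?_⟩
    · constructor
      · intro h; exact absurd h (by decide)
      · intro h; exact absurd (Pool.Agent.N809.PQ.sg21_parity hs h1 h) hw
    · rw [hf1]
      push_cast
      ring

end

end Pool.Agent.N877.S21
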