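import Pool.Agent.N637.P21.Asm
import Pool.Agent.N971.EX.Val
import Pool.Agent.N971.EX.Per17
import Pool.Agent.N971.EX.Gs2
import Pool.Agent.N974.P21G.Cm

/-!
# Level 21, all discriminants: the scale of the even symbol and the central values
-/

set_option autoImplicit false
set_option linter.style.haveILetI false

open Complex Filter Topology Set UpperHalfPlane MatrixGroups CongruenceSubgroup ZMod

namespace Pool.Agent.N877.S21

open Pool.Agent.N974.Gen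
open Pool.Agent.N974.GN (sq21)
open Pool.Agent.N402.MF21 (f21 eigen21 param21 tends0 tends3 tends7 hW21 hW3)
open Pool.Agent.N969.P15 (un)
open Pool.Agent.W97.MT (ap)
open Pool.Agent.Y700 (IsL tamProd Omega)
open Pool.Agent.N974.P21G (sig ky sig_mul)
open Pool.Agent.N637.P21 (odd_val)

/-- **the scale of the even symbol** -/
theorem scale21 (L : PeriodPair) (Op Om : ℝ) (hOm : 0 < Om)
    (g2 : L.g₂ = 193 / 12) (g3 : L.g₃ = 575 / 216)
    (hL : ∀ w : ℂ, w ∈ L.lattice ↔ ∃ a b : ℤ, w = a * Op + b * Om * Complex.I) :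
    ∃ m : ℤ, Odd m ∧ ky = m * Op := by
  have hp := param21 L g2 g3
  obtain ⟨z1, zw⟩ := value_class hp sq21 tends0 (r' := 0) rfl
  obtain ⟨z2, -, z4⟩ := (tors21 L g2 g3 z1).1 zw
  have z0 := II_zero_im f21 eigen21.real
  obtain ⟨a, b, hab⟩ := (hL _).1 z4
  have h1 := congrArg Complex.im hab
  have h2 : b = 0 := by
    simp [z0] at h1
    rcases h1 with h1 | h1
    · exact h1
    · exact absurd h1 hOm.ne'
  have hodd : Odd a := by
    rw [← Int.not_even_iff_odd]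
    rintro ⟨k, hk⟩
    apply z2
    refine (hL _).2 ⟨k, 0, ?_⟩
    have h3 : (4 : ℂ) * II f21 0 = (k + k) * Op := by
      rw [hab, h2, hk]; push_cast; ring
    linear_combination (1 / 2 : ℂ) * h3
  have h3 : 4 * (II f21 0).re = a * Op := by
    have := congrArg Complex.re hab
    rw [h2] at this
    simpa using this
  refine ⟨-a, hodd.neg, ?_⟩
  have P := symbP eigen21 (by norm_num : 1 < 21)
  have h4 := P.hecke 2 Nat.prime_two (by norm_num) 0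
  have e2 : ap E21 2 = -1 := ap21_2
  simp only [Finset.sum_range_succ, Finset.sum_range_zero] at h4
  rw [e2] at h4
  norm_num at h4
  show (II f21 (1 / 2)).re - (II f21 0).re = _
  push_cast
  linarith

/-- **positive discriminants** -/
theorem coreP {n : ℕ} [NeZero n] (hn1 : 1 < n) (W : WeierstrassCurve ℤ)
    (h4 : W.c₄ = 193 * (n : ℤ) ^ 2) (h6 : W.c₆ = 575 * (n : ℤ) ^ 3)
    (χ : DirichletCharacter ℂ n) (hχ : χ.IsPrimitive) (hinv : χ⁻¹ = χ) (heven : χ (-1) = 1)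
    (hG : gaussSum χ (stdAddChar (N := n)) = ((Real.sqrt n : ℝ) : ℂ))
    (w : ℕ → ℤ) (hw : ∀ u : ℕ, χ (u : ZMod n) = (w u : ℂ))
    (hv : ∀ p : ℕ, p.Prime → w p = 0 ∨ w p = 1 ∨ w p = -1)
    (ha : ∀ p : ℕ, p.Prime → ap W p = ap E21 p * w p)
    (hΔ : ∀ p : ℕ, p.Prime → ((p : ℤ) ∣ W.Δ ↔ p ∣ 21 ∨ w p = 0)) {T : ℕ} (hT : tamProd W = T)
    (htor : ∃ t : ℕ, Odd t ∧
      Nat.card (AddCommGroup.torsion (W.map (Int.castRingHom ℚ)).toAffine.Point) = 4 * t)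
    {Q : Prop} (hs : ∑ u ∈ un n, (w u : ℝ) * (II f21 ((u : ℚ) / n)).re = ky * sig n)
    (hR : ∃ y : ℤ, (Odd y ↔ Q) ∧ 8 * sig n = -(T * (y : ℝ) ^ 2)) :
    0 < Omega W ∧
    ∃ (f : ℂ → ℂ) (v : ℚ) (y : ℤ), IsL W f ∧ v ≠ 0 ∧ padicValRat 2 v = 0 ∧ (Odd y ↔ Q) ∧
      f 1 = (((v : ℝ) * (y : ℝ) ^ 2 * (Omega W * tamProd W /
        (Nat.card (AddCommGroup.torsion (W.map (Int.castRingHom ℚ)).toAffine.Point) : ℝ) ^ 2) : ℝ) :
          ℂ) := by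
  have hn0 : (0 : ℝ) < n := by exact_mod_cast (by omega : 0 < n)
  have hsn : (0 : ℝ) < √(n : ℝ) := Real.sqrt_pos.2 hn0
  obtain ⟨L, Op, Om, hOp, hOm, g2, g3, hL⟩ := Pool.Agent.N975.LatGen.lat21
  obtain ⟨m, hm, hky⟩ := scale21 L Op Om hOm g2 g3 hL
  have hΩ : Omega W = 2 * Op / √n := Pool.Agent.N971.EX.omega_pos L Op Om hOp hOm
    (c4 := 193) (c6 := 575) (by rw [g2]; push_cast; rfl) (by rw [g3]; push_cast; rfl) hL n
    (by omega) W h4 h6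
  obtain ⟨f, hf, hf1⟩ := Pool.Agent.N971.EX.value_even eigen21 W hn1 χ hχ hinv heven hG w hw hv
    ha hΔ
  refine ⟨by rw [hΩ]; positivity, ?_⟩
  obtain ⟨y, hyQ, hy⟩ := hR
  obtain ⟨t, ht, htor⟩ := htor
  have : Fact (Nat.Prime 2) := ⟨Nat.prime_two⟩
  have hzo : Odd (-m * (t : ℤ) ^ 2) := hm.neg.mul ((Int.odd_coe_nat t).2 ht).pow
  have hz0 : -m * (t : ℤ) ^ 2 ≠ 0 := by
    intro h0
    rw [h0] at hzo
    exact absurd hzo (by decide)
  have ht0 : (t : ℝ) ≠ 0 := by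
    have : t ≠ 0 := by rintro rfl; exact absurd ht (by decide)
    exact_mod_cast this
  refine ⟨f, ((-m * (t : ℤ) ^ 2 : ℤ) : ℚ), y, hf, by exact_mod_cast hz0, odd_val hzo, hyQ, ?_⟩
  rw [hf1, hs, hky, hΩ, htor, hT]
  congr 1
  have hs' : sig n = -(T * (y : ℝ) ^ 2) / 8 := by linarith
  rw [hs']
  push_cast
  field_simp
  ring

/-- the central value in terms of the odd symbol -/
def RelN (n : ℕ) (w : ℕ → ℤ) (T : ℕ) (Q : Prop) : Prop := ∃ y c : ℤ, Odd c ∧ (Odd y ↔ Q) ∧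
  ∀ (s : ℚ → ℤ) (a : ℕ → ℤ), Symb21 s a → ∃ e : ℤ, Odd e ∧
    4 * c * ∑ u ∈ un n, w u * s ((u : ℚ) / n) = e * (T : ℤ) * y ^ 2

/-- **negative discriminants** -/
theorem coreN {n : ℕ} [NeZero n] (hn1 : 1 < n) (W : WeierstrassCurve ℤ)
    (h4 : W.c₄ = 193 * (n : ℤ) ^ 2) (h6 : W.c₆ = -(575 * (n : ℤ) ^ 3))
    (χ : DirichletCharacter ℂ n) (hχ : χ.IsPrimitive) (hinv : χ⁻¹ = χ) (hodd : χ (-1) = -1)
    (w : ℕ → ℤ) (hw : ∀ u : ℕ, χ (u : ZMod n) = (w u : ℂ))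
    (hv : ∀ p : ℕ, p.Prime → w p = 0 ∨ w p = 1 ∨ w p = -1)
    (ha : ∀ p : ℕ, p.Prime → ap W p = ap E21 p * w p)
    (hΔ : ∀ p : ℕ, p.Prime → ((p : ℤ) ∣ W.Δ ↔ p ∣ 21 ∨ w p = 0)) {T : ℕ} (hT : tamProd W = T)
    (htor : ∃ t : ℕ, Odd t ∧
      Nat.card (AddCommGroup.torsion (W.map (Int.castRingHom ℚ)).toAffine.Point) = 4 * t)
    {Q : Prop} (hR : RelN n w T Q) :
    0 < Omega W ∧
    ∃ (f : ℂ → ℂ) (v : ℚ) (y : ℤ), IsL W f ∧ v ≠ 0 ∧ padicValRat 2 v = 0 ∧ (Odd y ↔ Q) ∧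
      f 1 = (((v : ℝ) * (y : ℝ) ^ 2 * (Omega W * tamProd W /
        (Nat.card (AddCommGroup.torsion (W.map (Int.castRingHom ℚ)).toAffine.Point) : ℝ) ^ 2) : ℝ) :
          ℂ) := by
  have hn0 : (0 : ℝ) < n := by exact_mod_cast (by omega : 0 < n)
  have hsn : (0 : ℝ) < √(n : ℝ) := Real.sqrt_pos.2 hn0
  obtain ⟨L, Op, Om, hOp, hOm, g2, g3, hL⟩ := Pool.Agent.N975.LatGen.lat21
  obtain ⟨sm, hsm, hsym⟩ := Pool.Agent.N637.P21.exists_symb21L L Op Om hOp hOm g2 g3 hL eigen21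
    (param21 L g2 g3) tends0 tends7 tends3 hW21 hW3
  have hΩ : Omega W = 2 * Om / √n := by
    rw [Pool.Agent.N637.P21.omega_eq, Pool.Agent.N637.P21.per_neg L Op Om hOp hOm g2 g3 hL n
      (by omega) W h4 h6]
    ring
  obtain ⟨f, ε, hf, hε, hval⟩ := Pool.Agent.N637.P21.valueG (f := f21) eigen21 hsm W hn1 χ hχ hinv
    hodd w hw hv ha hΔ
  refine ⟨by rw [hΩ]; positivity, ?_⟩
  obtain ⟨y, c, hc, hyQ, hrel⟩ := hR
  obtain ⟨t, ht, htor⟩ := htor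
  obtain ⟨e, he, hr⟩ := hrel sm _ hsym
  have : Fact (Nat.Prime 2) := ⟨Nat.prime_two⟩
  have hεo : Odd ε := by rcases hε with rfl | rfl <;> decide
  have hzo : Odd (ε * e * (t : ℤ) ^ 2) :=
    (hεo.mul he).mul ((Int.odd_coe_nat t).2 ht).pow
  have hz0 : ε * e * (t : ℤ) ^ 2 ≠ 0 := by
    intro h0
    rw [h0] at hzo
    exact absurd hzo (by decide)
  have hc0 : c ≠ 0 := by
    rintro rfl
    exact absurd hc (by decide)
  have ht0 : (t : ℝ) ≠ 0 := by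
    have : t ≠ 0 := by rintro rfl; exact absurd ht (by decide)
    exact_mod_cast this
  refine ⟨f, ((ε * e * (t : ℤ) ^ 2 : ℤ) : ℚ) / ((c : ℤ) : ℚ), y, hf, ?_, ?_, hyQ, ?_⟩
  · exact div_ne_zero (by exact_mod_cast hz0) (by exact_mod_cast hc0)
  · rw [padicValRat.div (by exact_mod_cast hz0) (by exact_mod_cast hc0), odd_val hzo, odd_val hc]
    rfl
  · rw [hval, hΩ, htor, hT]
    have hr' : (4 : ℝ) * c * ((∑ u ∈ un n, w u * sm ((u : ℚ) / n) : ℤ) : ℝ) =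
        (e : ℝ) * (T : ℝ) * (y : ℝ) ^ 2 := by
      exact_mod_cast hr
    set S : ℝ := ((∑ u ∈ un n, w u * sm ((u : ℚ) / n) : ℤ) : ℝ) with hS
    congr 1
    have hcR : (c : ℝ) ≠ 0 := by exact_mod_cast hc0
    have hS' : S = (e : ℝ) * T * (y : ℝ) ^ 2 / (4 * c) := by
      rw [eq_div_iff (mul_ne_zero (by norm_num) hcR)]
      linarith
    rw [hS']
    push_cast
    field_simp
    ring

end Pool.Agent.N877.S21
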